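import Pool.Agent.helper66.SL.SpecK

/-!
# MP_ad2b66_co, row slk:KFI
-/

set_option autoImplicit false

namespace Pool.Agent.helper66.SL

open Pool.Agent.helper52.FC

theorem KFI_trans {E : Type} {X Y Z : E → SignType} (h1 : Le X Y) (h2 : Le Y Z) : Le X Z := by
  intro e
  rcases h1 e with h | h
  · exact Or.inl h
  · rcases h2 e with h' | h'
    · exact Or.inl (h.trans h')
    · exact Or.inr (h.trans h')

theorem KFI_antisymm {E : Type} {X Y : E → SignType} (h1 : Le X Y) (h2 : Le Y X) : X = Y := by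
  funext e
  rcases h1 e with h | h
  · rcases h2 e with h' | h'
    · exact h.trans h'.symm
    · exact h'.symm
  · exact h

theorem KFI_cmp {E : Type} {L : Set (E → SignType)} (hL : Good L) {X T : E → SignType} (hX : X ∈ L)
    (hT : IsTope L T) : IsTope L (cmp X T) :=
  tope_of (hL.om.comp X hX T hT.1) fun e => by
    by_cases h : X e = 0
    · rw [cmp_pos h]
      exact tope_supp hL.om hL.simple hT e
    · rw [cmp_neg h]
      exact h

theorem KFI_le {E : Type} [Finite E] {L : Set (E → SignType)} (hL : Good L) {X Y : E → SignType}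
    (hX : X ∈ L) (h : ∀ T, IsTope L T → Le X T → Le Y T) : Le Y X := by
  intro e
  by_cases hY : Y e = 0
  · exact Or.inl hY
  right
  obtain ⟨T0, hT0⟩ := exists_tope hL.om
  have h1 := h _ (KFI_cmp hL hX hT0) (le_cmp X T0) e
  have h2 := h _ (KFI_cmp hL hX (tope_neg hL.om hL.simple hT0)) (le_cmp X _) e
  rcases h1 with h1 | h1
  · exact absurd h1 hY
  rcases h2 with h2 | h2
  · exact absurd h2 hY
  by_cases hXe : X e = 0
  · rw [cmp_pos hXe] at h1 h2
    have h3 : T0 e = -T0 e := h1.symm.trans h2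
    exact absurd (sneg h3 rfl) (tope_supp hL.om hL.simple hT0 e)
  · rw [cmp_neg hXe] at h1
    exact h1

theorem KFI_proof (hKF3 : KF3) (hKSR : KSR) (hKST : KST) : KFI := by
  intro E _ L r P φ hK
  have hL := hK.good
  -- the face of a covector
  have hA : ∀ X ∈ L, convexHull ℝ {x | ∃ T, IsTope L T ∧ Le X T ∧ x = vp φ T} ∈ Fc P ∧
      ∀ T, IsTope L T →
        (vp φ T ∈ convexHull ℝ {x | ∃ T, IsTope L T ∧ Le X T ∧ x = vp φ T} ↔ Le X T) := by
    intro X hX
    obtain ⟨F, hF, hF'⟩ := hKST E L r P φ hK X hX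
    have h1 := ((hKF3 E L r P φ hK).2 F hF).2
    have h2 : {x | ∃ T, IsTope L T ∧ vp φ T ∈ F ∧ x = vp φ T} =
        {x | ∃ T, IsTope L T ∧ Le X T ∧ x = vp φ T} := by
      ext x
      constructor
      · rintro ⟨T, hT, h3, h4⟩
        exact ⟨T, hT, (hF' T hT).1 h3, h4⟩
      · rintro ⟨T, hT, h3, h4⟩
        exact ⟨T, hT, (hF' T hT).2 h3, h4⟩
    rw [h2] at h1
    rw [← h1]
    exact ⟨hF, hF'⟩
  have hC : ∀ X ∈ L, ∀ Y ∈ L, (convexHull ℝ {x | ∃ T, IsTope L T ∧ Le X T ∧ x = vp φ T} ⊆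
      convexHull ℝ {x | ∃ T, IsTope L T ∧ Le Y T ∧ x = vp φ T} ↔ Le Y X) := by
    intro X hX Y hY
    constructor
    · intro h
      refine KFI_le hL hX fun T hT hXT => ?_
      exact ((hA Y hY).2 T hT).1 (h (((hA X hX).2 T hT).2 hXT))
    · intro h
      refine convexHull_mono ?_
      rintro x ⟨T, hT, h3, h4⟩
      exact ⟨T, hT, KFI_trans h h3, h4⟩
  refine ⟨fun X hX => (hA X hX).1, ?_, hC⟩
  obtain ⟨hfin, hcard, -⟩ := hKSR E L r P φ hK
  set C : (E → SignType) → Set (EuclideanSpace ℝ (Fin r)) := fun X =>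
    convexHull ℝ {x | ∃ T, IsTope L T ∧ Le X T ∧ x = vp φ T} with hCdef
  have hinj : Set.InjOn C L := by
    intro X hX Y hY hXY
    have h1 : Le Y X := (hC X hX Y hY).1 (le_of_eq hXY)
    have h2 : Le X Y := (hC Y hY X hX).1 (le_of_eq hXY.symm)
    exact KFI_antisymm h2 h1
  have hsub : C '' L ⊆ Fc P := by
    rintro _ ⟨X, hX, rfl⟩
    exact (hA X hX).1
  have heq : C '' L = Fc P := by
    refine Set.eq_of_subset_of_ncard_le hsub ?_ hfin
    rw [hcard, Set.ncard_image_of_injOn hinj]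
  intro F hF
  rw [← heq] at hF
  obtain ⟨X, hX, hXF⟩ := hF
  exact ⟨X, hX, hXF.symm⟩

end Pool.Agent.helper66.SL
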